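import Pool.Agent.Helper16.MD.Defs

/-!
Moebius disjointness of generalized Morse systems: statements of the modules.
-/

open Finset Filter
open scoped ComplexConjugate

namespace Pool.Agent.Helper16.MD

open Pool.Agent.Helper51.Mo (PM pw len Lev Orth)

/-! ## Block T: the inequality of Turan and Kubilius, correlations -/

/-- TKA: the identity with one prime factor. -/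
def ST_TKA : Prop := ∀ S : Finset ℕ, (∀ p ∈ S, p.Prime) → ∃ C : ℝ, 0 ≤ C ∧
  ∀ (f : ℕ → ℂ) (N : ℕ), (∀ n, ‖f n‖ ≤ 1) →
  ‖((∑ p ∈ S, 1 / (p : ℝ) : ℝ) : ℂ) * MS f N + ∑ p ∈ S, MS (fun y => f (p * y)) (N / p)‖ ≤
    N * (Real.sqrt (∑ p ∈ S, 1 / (p : ℝ)) + ∑ p ∈ S, 1 / (p : ℝ) ^ 2) + C * Real.sqrt N

/-- TKB: the same with three prime factors. -/
def ST_TKB : Prop := ∀ S₁ S₂ S₃ : Finset ℕ, (∀ p ∈ S₁, p.Prime) → (∀ p ∈ S₂, p.Prime) →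
  (∀ p ∈ S₃, p.Prime) → ∀ A₁ A₂ A₃ B₁ B₂ B₃ : ℝ,
  A₁ = ∑ p ∈ S₁, 1 / (p : ℝ) → A₂ = ∑ p ∈ S₂, 1 / (p : ℝ) → A₃ = ∑ p ∈ S₃, 1 / (p : ℝ) →
  B₁ = ∑ p ∈ S₁, 1 / (p : ℝ) ^ 2 → B₂ = ∑ p ∈ S₂, 1 / (p : ℝ) ^ 2 →
  B₃ = ∑ p ∈ S₃, 1 / (p : ℝ) ^ 2 → ∃ C : ℝ, 0 ≤ C ∧
  ∀ (f : ℕ → ℂ) (N : ℕ), (∀ n, ‖f n‖ ≤ 1) →
  ‖((A₁ * A₂ * A₃ : ℝ) : ℂ) * MS f N +
    ∑ p ∈ S₁, ∑ q ∈ S₂, ∑ r ∈ S₃, MS (fun y => f (p * (q * r) * y)) (N / (p * (q * r)))‖ ≤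
    N * (A₂ * A₃ * (Real.sqrt A₁ + B₁) + A₁ * A₃ * (Real.sqrt A₂ + B₂) +
      A₁ * A₂ * (Real.sqrt A₃ + B₃)) + C * Real.sqrt N

/-- KAT: a block with large correlations. -/
def ST_KAT : Prop := ∀ (η : ℝ) (D : ℕ) (R₁ R₂ R₃ : Finset ℕ) (f : ℕ → ℂ), 0 < η → 1 ≤ D →
  (∀ n, ‖f n‖ ≤ 1) → (∀ i ∈ R₁ ∪ R₂ ∪ R₃, 24 / η ≤ (2 : ℝ) ^ i) →
  64 / η ^ 2 ≤ Am D R₁ → 64 / η ^ 2 ≤ Am D R₂ → 64 / η ^ 2 ≤ Am D R₃ →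
  (∃ᶠ N : ℕ in atTop, η * N ≤ ‖MS f N‖) →
  ∃ i ∈ R₁, ∃ j ∈ R₂, ∃ k ∈ R₃, ∀ Γ : ℕ → ℕ → ℝ,
  (∀ P P' : ℕ, 1 ≤ P → 1 ≤ P' → P.Coprime D → P'.Coprime D → 0 ≤ Γ P P' ∧
    ∀ ε : ℝ, 0 < ε → ∃ M₀ : ℕ, ∀ M : ℕ, M₀ ≤ M →
      ‖∑ y ∈ Icc 1 M, f (P * y) * conj (f (P' * y))‖ ≤ (Γ P P' + ε) * M) →
  (η / 32) ^ 2 * ((Bk D i j k).card : ℝ) ^ 2 ≤
    ∑ s ∈ Bk D i j k, ∑ t ∈ Bk D i j k, Γ (pr s) (pr t)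

/-- WND: windows with many primes. -/
def ST_WND : Prop := ∀ A : ℝ, ∃ K : ℕ, 2 ≤ K ∧ ∀ I D : ℕ, 1 ≤ I → 1 ≤ D → D ≤ 2 ^ (2 ^ I) →
  A ≤ Am D (RW D I K)

/-- SHF: van der Corput's inequality with shifts by multiples of `n`. -/
def ST_SHF : Prop := ∀ (n Λ a H P P' : ℕ) (φ G ω : ℕ → ℂ), 1 ≤ n → 1 ≤ Λ → 1 ≤ H → 1 ≤ P →
  1 ≤ P' → P.Coprime (n * Λ) → P'.Coprime (n * Λ) →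
  (∀ x, ‖φ x‖ ≤ 1 ∧ ‖G x‖ ≤ 1 ∧ ‖ω x‖ ≤ 1) → (∀ x, φ (x + n) = φ x) →
  (∀ x, G (x + Λ) = G x) → ∀ ε : ℝ, 0 < ε → ∃ M₀ : ℕ, ∀ M : ℕ, M₀ ≤ M →
  ‖∑ y ∈ Icc 1 M, FF n Λ a φ G ω (P * y) * conj (FF n Λ a φ G ω (P' * y))‖ ^ 2 ≤
    (VV n Λ a H P P' G + ((P : ℝ) + P') * H / Λ + ε) * (M : ℝ) ^ 2

/-- EXV: expansion of the sum of the mean squares. -/
def ST_EXV : Prop := ∀ (n Λ a H : ℕ) (G : ℕ → ℂ) (B : Finset (ℕ × ℕ × ℕ)),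
  ∑ s ∈ B, ∑ t ∈ B, VV n Λ a H (pr s) (pr t) G =
    (∑ h ∈ range H, ∑ h' ∈ range H, ∑ z ∈ range (n * Λ), ‖∑ s ∈ B,
      G ((pr s * z + a) / n + pr s * h) * conj (G ((pr s * z + a) / n + pr s * h'))‖ ^ 2) /
      ((n : ℝ) * Λ * (H : ℝ) ^ 2)

/-! ## Block F: Fourier analysis modulo `D` -/

/-- DIL: Parseval's identity with dilations. -/
def ST_DIL : Prop := ∀ (D : ℕ) [NeZero D] (B : Finset (ℕ × ℕ × ℕ)) (u : ℕ × ℕ × ℕ → ZMod D)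
  (F : ℕ × ℕ × ℕ → ZMod D → ℂ) (a : ZMod D), (∀ s ∈ B, IsUnit (u s)) →
  (∑ z : ZMod D, ‖∑ s ∈ B, F s (u s * z + a)‖ ^ 2) / D =
    ∑ Z : ZMod D, ‖∑ s ∈ B, hat (F s) ((u s)⁻¹ * Z) * ed ((u s)⁻¹ * Z * a)‖ ^ 2

/-- TAL: the Fourier transform of a function which is constant on blocks of length `n`. -/
def ST_TAL : Prop := ∀ (n Λ T : ℕ) [NeZero (n * Λ)] (e : ℕ → ℂ), 1 ≤ T → (∀ x, ‖e x‖ ≤ 1) →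
  (∀ x, e (x + Λ) = e x) →
  hat (D := n * Λ) (fun x => e (x.val / n)) 0 = (∑ x ∈ range Λ, e x) / Λ ∧
  ∑ X : ZMod (n * Λ), ‖hat (fun x => e (x.val / n)) X‖ ^ 2 ≤ 1 ∧
  ∑ X ∈ (univ : Finset (ZMod (n * Λ))).filter (fun X => ((T * Λ : ℕ) : ℤ) < |X.valMinAbs|),
    ‖hat (fun x => e (x.val / n)) X‖ ^ 2 ≤ 1 / T

/-- FOU: the mean square of a sum of dilated functions. -/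
def ST_FOU : Prop := ∀ (n Λ T a : ℕ) (B : Finset (ℕ × ℕ × ℕ)) (e : ℕ × ℕ × ℕ → ℕ → ℂ) (ρ : ℝ),
  1 ≤ n → 1 ≤ Λ → 1 ≤ T → 0 ≤ ρ → (∀ s ∈ B, (pr s).Coprime (n * Λ)) → (∀ s x, ‖e s x‖ ≤ 1) →
  (∀ s x, e s (x + Λ) = e s x) →
  (∀ Z : ZMod (n * Λ), Z ≠ 0 → ((B.filter fun s =>
    |((pr s : ZMod (n * Λ))⁻¹ * Z).valMinAbs| ≤ ((T * Λ : ℕ) : ℤ)).card : ℝ) ≤ ρ * B.card) →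
  (∑ z ∈ range (n * Λ), ‖∑ s ∈ B, e s ((pr s * z + a) / n)‖ ^ 2) / ((n : ℝ) * Λ) ≤
    (2 * ρ + 2 / T) * (B.card : ℝ) ^ 2 + ‖∑ s ∈ B, (∑ x ∈ range Λ, e s x) / (Λ : ℂ)‖ ^ 2

/-! ## Block E: inverses of primes modulo `d` -/

/-- BIL: bilinear sums. -/
def ST_BIL : Prop := ∀ (ι κ : Type) (d : ℕ) [NeZero d] (X : Finset ι) (Y : Finset κ)
  (x : ι → ZMod d) (y : κ → ZMod d) (α : ι → ℂ) (β : κ → ℂ) (b : ZMod d), IsUnit b →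
  (∀ i, ‖α i‖ ≤ 1) → (∀ j, ‖β j‖ ≤ 1) →
  ‖∑ i ∈ X, ∑ j ∈ Y, α i * β j * ed (b * x i * y j)‖ ^ 2 ≤ (d : ℝ) * JJ X x * JJ Y y

/-- HOL: Hoelder's inequality. -/
def ST_HOL : Prop := ∀ (κ : Type) (d k : ℕ) [NeZero d] (Y : Finset κ) (y : κ → ZMod d)
  (Q : Finset ℕ) (x : ℕ → ZMod d) (b : ZMod d), 1 ≤ k → IsUnit b →
  ‖∑ p ∈ Q, ∑ j ∈ Y, ed (b * x p * y j)‖ ^ (2 * k) ≤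
    (Y.card : ℝ) ^ (2 * k - 2) * d * JK Q x k * JJ Y y

/-- ENA: energy of order one. -/
def ST_ENA : Prop := ∀ (i d : ℕ) [NeZero d] (Q : Finset ℕ), Pb d i Q →
  (JJ Q (fun p : ℕ => (p : ZMod d)⁻¹) : ℝ) ≤ Q.card * ((2 : ℝ) ^ i / d + 1)

/-- ENX: the energies of Karatsuba. -/
def ST_ENX : Prop := ∀ (i k d : ℕ) [NeZero d] (Q : Finset ℕ), Pb d i Q → 1 ≤ k → k < 2 ^ i →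
  k * 2 ^ ((i + 1) * (2 * k - 1)) < d →
  JK Q (fun p : ℕ => (p : ZMod d)⁻¹) k ≤ k.factorial * Q.card ^ k

/-- ENY: energy of the mixed family. -/
def ST_ENY : Prop := ∀ (j k l d : ℕ) [NeZero d] (Q₂ Q₃ : Finset ℕ), Pb d j Q₂ → Pb d k Q₃ →
  j + 1 ≤ k → 1 ≤ l → 4 * l * 2 ^ k * 2 ^ ((j + 1) * (4 * l - 1)) < d →
  JJ (YY Q₂ Q₃ l) (yv d l) ≤ (2 * l).factorial * Q₂.card ^ (2 * l) * (Q₃.card + 1)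

/-- HOC: Hoelder's inequality for the triple sum. -/
def ST_HOC : Prop := ∀ (d l : ℕ) [NeZero d] (Q₁ Q₂ Q₃ : Finset ℕ) (b : ZMod d), 1 ≤ l →
  ‖S3 b Q₁ Q₂ Q₃‖ ^ (2 * l) ≤ ((Q₁.card : ℝ) * Q₃.card) ^ (2 * l - 1) *
    (‖∑ p ∈ Q₁, ∑ u ∈ YY Q₂ Q₃ l, ed (b * (p : ZMod d)⁻¹ * yv d l u)‖ +
      (Q₁.card : ℝ) * Q₃.card * ((2 * l : ℕ) : ℝ) ^ 2 * (Q₂.card : ℝ) ^ (2 * l - 1))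

/-- KMX: choice of the orders. -/
def ST_KMX : Prop := ∀ K i d : ℕ, 1 ≤ i → 2 ^ (i + 1) < d → d ≤ 2 ^ (K * i) →
  ∃ k : ℕ, 1 ≤ k ∧ k ≤ K ∧ k * 2 ^ ((i + 1) * (2 * k - 1)) < d ∧
    d ≤ (k + 1) * 2 ^ ((i + 1) * (2 * k + 1))

/-- LMX: choice of the orders. -/
def ST_LMX : Prop := ∀ K j k d : ℕ, 1 ≤ j → 4 * 2 ^ k * 2 ^ ((j + 1) * 3) < d →
  d ≤ 2 ^ (K * j) →
  ∃ l : ℕ, 1 ≤ l ∧ l ≤ K ∧ 4 * l * 2 ^ k * 2 ^ ((j + 1) * (4 * l - 1)) < d ∧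
    d ≤ 4 * (l + 1) * 2 ^ k * 2 ^ ((j + 1) * (4 * l + 3))

/-- BTD: the inequality of Brun and Titchmarsh. -/
def ST_BTD : Prop := ∃ C : ℝ, 0 < C ∧ ∀ i d r : ℕ, 1 ≤ i → 1 ≤ d → d ^ 2 ≤ 2 ^ i →
  r.Coprime d →
  (((Ioc (2 ^ i) (2 ^ (i + 1))).filter fun p => p.Prime ∧ p % d = r % d).card : ℝ) ≤
    C * 2 ^ i / ((d.totient : ℝ) * i)

/-- TOT: a lower bound for Euler's function. -/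
def ST_TOT : Prop := ∀ ε : ℝ, 0 < ε → ∃ D₂ : ℕ, ∀ d : ℕ, D₂ ≤ d →
  Real.sqrt d ≤ ε * (d.totient : ℝ)

/-- ESA: small moduli. -/
def ST_ESA : Prop := ∀ ε : ℝ, 0 < ε → ∃ D₂ : ℕ, ∀ (i k d : ℕ) [NeZero d] (Q₁ Q₃ : Finset ℕ)
  (b : ZMod d), 1 ≤ i → i ≤ k → D₂ ≤ d → d ^ 2 ≤ 2 ^ i → IsUnit b → Pr d i Q₁ → Pr d k Q₃ →
  ‖S2 b Q₁ Q₃‖ ≤ ε * Q₁.card * Q₃.card

/-- ESB: moduli of intermediate size. -/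
def ST_ESB : Prop := ∀ (ε : ℝ) (K : ℕ), 0 < ε → ∃ I₀ : ℕ, ∀ (i k d : ℕ) [NeZero d]
  (Q₁ Q₃ : Finset ℕ) (b : ZMod d), I₀ ≤ i → 5 * i ≤ k → k ≤ K * i → 2 ^ i < d ^ 2 →
  d * 2 ^ (2 * i) ≤ 2 ^ (2 * k) → IsUnit b → Pr d i Q₁ → Pr d k Q₃ →
  ‖S2 b Q₁ Q₃‖ ≤ ε * Q₁.card * Q₃.card

/-- ESC: large moduli. -/
def ST_ESC : Prop := ∀ (ε : ℝ) (K : ℕ), 0 < ε → ∃ I₀ : ℕ, ∀ (i j k d : ℕ) [NeZero d]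
  (Q₁ Q₂ Q₃ : Finset ℕ) (b : ZMod d), I₀ ≤ i → I₀ ≤ j → 5 * (i + j) ≤ k → k ≤ K * i →
  k ≤ K * j → d ≤ 2 ^ (K * i) → d ≤ 2 ^ (K * j) → 2 ^ (2 * k) < d * 2 ^ (2 * i) → IsUnit b →
  Pr d i Q₁ → Pr d j Q₂ → Pr d k Q₃ →
  ‖S3 b Q₁ Q₂ Q₃‖ ≤ ε * Q₁.card * Q₂.card * Q₃.card

/-- EST: all moduli. -/
def ST_EST : Prop := ∀ (ε : ℝ) (K : ℕ), 0 < ε → ∃ D₂ I₀ : ℕ, ∀ (i j k d : ℕ) [NeZero d]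
  (Q₁ Q₂ Q₃ : Finset ℕ) (b : ZMod d), I₀ ≤ i → I₀ ≤ j → 5 * (i + j) ≤ k → k ≤ K * i →
  k ≤ K * j → D₂ ≤ d → d ≤ 2 ^ (K * i) → d ≤ 2 ^ (K * j) → IsUnit b →
  Pr d i Q₁ → Pr d j Q₂ → Pr d k Q₃ →
  ‖S3 b Q₁ Q₂ Q₃‖ ≤ ε * Q₁.card * Q₂.card * Q₃.card

/-- FEJ: counting with Fejer's kernel. -/
def ST_FEJ : Prop := ∀ (ι : Type) (D M : ℕ) [NeZero D] (B : Finset ι) (W : ι → ZMod D) (ε : ℝ),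
  1 ≤ M → 0 ≤ ε →
  (∀ m : ℕ, 1 ≤ m → m < M → ‖∑ i ∈ B, ed ((m : ZMod D) * W i)‖ ≤ ε * B.card) →
  ((B.filter fun i => 2 * M * |(W i).valMinAbs| ≤ (D : ℤ)).card : ℝ) ≤
    3 * (1 / M + ε) * B.card

/-- RED: reduction of the fractions. -/
def ST_RED : Prop := ∀ (D : ℕ) [NeZero D] (W : ZMod D), ∃ (d : ℕ) (_ : NeZero d) (b : ZMod d),
  d ∣ D ∧ IsUnit b ∧ d * Nat.gcd D W.val = D ∧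
  ∀ P : ℕ, P.Coprime D → ed ((P : ZMod D)⁻¹ * W) = ed ((P : ZMod d)⁻¹ * b)

/-- RIC: few triples give a small numerator. -/
def ST_RIC : Prop := ∀ (ρ : ℝ) (K T : ℕ), 0 < ρ → 1 ≤ T → ∃ n₀ I₀ : ℕ, 1 ≤ n₀ ∧
  ∀ n Λ i j k : ℕ, n₀ ≤ n → 1 ≤ Λ → I₀ ≤ i → I₀ ≤ j → Par K n Λ i j k →
  ∀ Z : ZMod (n * Λ), Z ≠ 0 → (((Bk (n * Λ) i j k).filter fun s =>
    |((pr s : ZMod (n * Λ))⁻¹ * Z).valMinAbs| ≤ ((T * Λ : ℕ) : ℤ)).card : ℝ) ≤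
    ρ * (Bk (n * Λ) i j k).card

/-! ## Block C: concentration of the spectral measure -/

/-- AUT: mean square of the autocorrelations. -/
def ST_AUT : Prop := ∀ (Λ P H : ℕ) (G : ℕ → ℂ), 1 ≤ Λ → (∀ x, G (x + Λ) = G x) →
  ∑ h ∈ range H, ∑ h' ∈ range H,
    ‖(∑ x ∈ range Λ, G (x + P * h) * conj (G (x + P * h'))) / (Λ : ℂ)‖ ^ 2 =
  ∑ ξ ∈ range Λ, ∑ ξ' ∈ range Λ, nu Λ G ξ * nu Λ G ξ' *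
    ‖∑ h ∈ range H, ee ((P : ℝ) * h * ((ξ : ℝ) - ξ') / Λ)‖ ^ 2

/-- NUS: the total mass. -/
def ST_NUS : Prop := ∀ (Λ : ℕ) (G : ℕ → ℂ), 1 ≤ Λ → (∀ x, ‖G x‖ ≤ 1) →
  ∑ ξ ∈ range Λ, nu Λ G ξ ≤ 1

/-- CNC: concentration. -/
def ST_CNC : Prop := ∀ (Λ R H : ℕ) (κ C : ℝ) (B : Finset (ℕ × ℕ × ℕ)) (ν : ℕ → ℝ), 1 ≤ Λ →
  1 ≤ R → 1 ≤ H → 0 < κ → κ ≤ 1 → 1 ≤ C → B.Nonempty →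
  (∀ s ∈ B, R < pr s ∧ pr s ≤ 8 * R ∧ (pr s).Coprime Λ) →
  (∀ s ∈ B, 8 * ((B.filter fun t => ¬ (pr s).Coprime (pr t)).card : ℝ) ≤ κ * B.card) →
  (Λ : ℝ) ≤ C * Real.sqrt κ * H * R → 16 * C * (R : ℝ) ^ 2 < Λ → (∀ ξ, 0 ≤ ν ξ) →
  ∑ ξ ∈ range Λ, ν ξ ≤ 1 →
  κ * B.card * (H : ℝ) ^ 2 ≤ ∑ s ∈ B, ∑ ξ ∈ range Λ, ∑ ξ' ∈ range Λ, ν ξ * ν ξ' *
    ‖∑ h ∈ range H, ee ((pr s : ℝ) * h * ((ξ : ℝ) - ξ') / Λ)‖ ^ 2 →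
  ∃ ξ ∈ range Λ, κ / (2 * (2 * C + 1)) ≤ ν ξ

/-- NCP: pairs of triples with a common prime. -/
def ST_NCP : Prop := ∀ (D i j k m : ℕ) (s : ℕ × ℕ × ℕ), s ∈ Bk D i j k → m ≤ (PB D i).card →
  m ≤ (PB D j).card → m ≤ (PB D k).card →
  m * ((Bk D i j k).filter fun t => ¬ (pr s).Coprime (pr t)).card ≤ 9 * (Bk D i j k).card

/-! ## Block P: the main proposition -/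

/-- PAR: the parameters. -/
def ST_PAR : Prop := ∀ (K J n : ℕ) (C : ℝ), 2 ≤ K → 1 ≤ n → ∃ Λ₀ : ℕ, 1 ≤ Λ₀ ∧
  ∀ Λ : ℕ, Λ₀ ≤ Λ → ∃ I : ℕ, J ≤ I ∧ 1 ≤ I ∧ n * Λ ≤ 2 ^ (2 ^ I) ∧
  ∀ i j k : ℕ, I ≤ i → i < K * I → I ≤ j → j < K * I → 11 * K * I ≤ k →
  k < K * (11 * K * I) →
  5 * (i + j) ≤ k ∧ k ≤ 800 * K ^ 2 * i ∧ k ≤ 800 * K ^ 2 * j ∧
  n * Λ ≤ 2 ^ (800 * K ^ 2 * i) ∧ n * Λ ≤ 2 ^ (800 * K ^ 2 * j) ∧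
  C * ((2 : ℝ) ^ (i + j + k)) ^ 2 < Λ ∧ C * i ≤ 2 ^ i ∧ C * j ≤ 2 ^ j ∧ C * k ≤ 2 ^ k ∧
  C ≤ (2 : ℝ) ^ i ∧ C ≤ (2 : ℝ) ^ j ∧ C ≤ (2 : ℝ) ^ k

/-- PRA: a large mean gives a large Fourier coefficient. -/
def ST_PRA : Prop := ∀ η : ℝ, 0 < η → η ≤ 1 → ∃ c : ℝ, 0 < c ∧ ∃ n₀ : ℕ, ∀ n : ℕ, n₀ ≤ n →
  ∃ Λ₀ : ℕ, ∀ (Λ a : ℕ) (φ G ω : ℕ → ℂ), Λ₀ ≤ Λ →
  (∀ x, ‖φ x‖ ≤ 1 ∧ ‖G x‖ ≤ 1 ∧ ‖ω x‖ ≤ 1) → (∀ x, φ (x + n) = φ x) →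
  (∀ x, G (x + Λ) = G x) → (∃ᶠ N : ℕ in atTop, η * N ≤ ‖MS (FF n Λ a φ G ω) N‖) →
  ∃ θ : ℝ, c ≤ ‖(∑ s ∈ range Λ, G s * ee (θ * s)) / (Λ : ℂ)‖

/-! ## Block S: words with a large Fourier coefficient -/

/-- PRD: product formula. -/
def ST_PRD : Prop := ∀ (β : ℕ → ℕ → ℝ) (ℓ : ℕ → ℕ), (∀ i, 1 ≤ ℓ i) →
  (∀ i n, β i (n + ℓ i) = β i n) → ∀ (s k : ℕ) (θ : ℝ),
  ‖(∑ x ∈ range (len ℓ s k), ((pw β ℓ s k x : ℝ) : ℂ) * ee (θ * x)) / (len ℓ s k : ℂ)‖ =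
    ∏ i ∈ range k, AW β ℓ (s + i) (θ * len ℓ s i)

/-- STA: compactness. -/
def ST_STA : Prop := ∀ (β : ℕ → ℕ → ℝ) (ℓ : ℕ → ℕ) (s : ℕ) (c : ℝ), (∀ i, 1 ≤ ℓ i) →
  (∀ i n, PM (β i n)) → (∀ k, ∃ θ : ℝ, c ≤ ∏ i ∈ range k, AW β ℓ (s + i) (θ * len ℓ s i)) →
  ∃ θ : ℝ, ∀ k, c ≤ ∏ i ∈ range k, AW β ℓ (s + i) (θ * len ℓ s i)

/-- WRD: one word. -/
def ST_WRD : Prop := ∃ τ : ℝ, 0 < τ ∧ ∀ (β : ℕ → ℕ → ℝ) (ℓ : ℕ → ℕ) (i : ℕ) (θ : ℝ),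
  2 ≤ ℓ i → (∀ n, PM (β i n)) → 1 - τ ≤ AW β ℓ i θ →
  ∃ m : ℤ, (ℓ i : ℝ) * |2 * θ - m| ≤ 1 / 4

/-- STB: the structure of the words. -/
def ST_STB : Prop := ∀ (β : ℕ → ℕ → ℝ) (ℓ : ℕ → ℕ) (s : ℕ) (c θ : ℝ), (∀ i, 2 ≤ ℓ i) →
  (∀ i n, PM (β i n)) → 0 < c → (∀ k, c ≤ ∏ i ∈ range k, AW β ℓ (s + i) (θ * len ℓ s i)) →
  DT β ℓ

/-! ## Block D: discrete spectrum -/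

/-- APX: approximation of the product words. -/
def ST_APX : Prop := ∀ (β : ℕ → ℕ → ℝ) (ℓ : ℕ → ℕ), (∀ i, 2 ≤ ℓ i) → (∀ i n, PM (β i n)) →
  (∀ i n, β i (n + ℓ i) = β i n) → DT β ℓ → ∀ δ : ℝ, 0 < δ → ∃ j₀ : ℕ, ∀ j : ℕ, j₀ ≤ j →
  ∃ ε : ℝ, (ε = 1 ∨ (ε = -1 ∧ ∀ i, j ≤ i → Odd (ℓ i))) ∧ ∀ k : ℕ, ∃ σ : ℝ, PM σ ∧
  (Nat.card {x : ℕ // x < len ℓ j k ∧ pw β ℓ j k x ≠ σ * ε ^ x} : ℝ) ≤ δ * len ℓ j k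

/-- WMR: the theorem of Matomaki and Radziwill with a periodic weight. -/
def ST_WMR : Prop := ∀ (q : ℕ) (δ : ℝ), 1 ≤ q → 0 < δ → ∃ L N₀ : ℕ, 1 ≤ L ∧ ∀ (N : ℕ)
  (c : ℕ → ℂ), N₀ ≤ N → (∀ n, ‖c n‖ ≤ 1) → (∀ n, c (n + q) = c n) →
  ∑ m ∈ range N, ‖∑ j ∈ range L, ((ArithmeticFunction.moebius (m + j) : ℤ) : ℂ) * c (m + j)‖ ≤
    δ * L * N

/-- BLK: from windows to blocks. -/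
def ST_BLK : Prop := ∀ (c ω : ℕ → ℂ) (a H L N : ℕ), 1 ≤ H → 1 ≤ L → (∀ n, ‖c n‖ ≤ 1) →
  (∀ n, ‖ω n‖ ≤ 1) →
  ‖MS (fun x => c x * ω ((x + a) / H)) N‖ ≤
    (∑ m ∈ range N, ‖∑ j ∈ range L,
      ((ArithmeticFunction.moebius (m + j) : ℤ) : ℂ) * c (m + j)‖) / L +
    ((N : ℝ) / H + 2) * L + 2 * L

/-- DSC: the case of a discrete spectrum. -/
def ST_DSC : Prop := ∀ (β : ℕ → ℕ → ℝ) (ℓ : ℕ → ℕ) (η : ℕ → ℝ), (∀ i, 2 ≤ ℓ i) →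
  (∀ i n, PM (β i n)) → (∀ i n, β i (n + ℓ i) = β i n) → DT β ℓ → Lev β ℓ η → Orth ℓ η

/-- ORT: orthogonality. -/
def ST_ORT : Prop := ∀ (β : ℕ → ℕ → ℝ) (ℓ : ℕ → ℕ) (η : ℕ → ℝ), (∀ i, 2 ≤ ℓ i) →
  (∀ i n, PM (β i n)) → (∀ i n, β i (n + ℓ i) = β i n) → Lev β ℓ η → Orth ℓ η

end Pool.Agent.Helper16.MD
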