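import Pool.Agent.Helper16.MD.Stmts
import Pool.Agent.Helper51.MoDefs
import Pool.Agent.Helper51.MoFinal

open Finset Filter

namespace Pool.Agent.Helper16.MD

open Pool.Agent.Helper51.Mo Pool.Agent.Helper51.Morse

theorem fin_morse (h : ST_ORT) (b : ℕ → Word) (x : ℕ → Bool) (hx : IsMorse b x) :
    MoebiusDisjoint (morseMap x) := by
  have hℓ : ∀ i, 2 ≤ sl b i := hx.two_le
  have hper : ∀ i n, sb b i (n + sl b i) = sb b i n := fun i n => sf_per _ _
  have hβ : ∀ i n, PM (sb b i n) := fun i n => sf_pm _ _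
  apply disjoint_of_chars
  intro y hy s
  have hlev := lev_of_mem hx hy
  exact char_orth hβ hℓ hper hlev (h _ _ _ hℓ hβ hper hlev) s

end Pool.Agent.Helper16.MD
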