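import Pool.Agent.Helper13.MD.BTD
import Pool.Agent.Helper13.MD.WND
import Pool.Agent.Helper18.MD.EST
import Pool.Agent.Helper18.MD.NCP
import Pool.Agent.Helper24.MD.CNC
import Pool.Agent.Helper25.MD.PAR
import Pool.Agent.Helper30.MD.RED
import Pool.Agent.Helper35.MD.SHF
import Pool.Agent.Helper37.MD.KAT
import Pool.Agent.Helper38.MD.BIL
import Pool.Agent.Helper38.MD.ESC
import Pool.Agent.Helper38.MD.HOC
import Pool.Agent.Helper38.MD.HOL
import Pool.Agent.Helper38.MD.KMX
import Pool.Agent.Helper41.MD.ENY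
import Pool.Agent.Helper41.MD.ESB
import Pool.Agent.Helper42.MD.BLK
import Pool.Agent.Helper42.MD.STA
import Pool.Agent.Helper47.MD.TOT
import Pool.Agent.Helper49.MD.TKB
import Pool.Agent.Helper51.MD.PRD
import Pool.Agent.Helper57.MD.TAL
import Pool.Agent.Helper58.MD.AUT
import Pool.Agent.Helper61.MD.TKA
import Pool.Agent.Helper63.MD.PRA
import Pool.Agent.Helper67.MD.DIL
import Pool.Agent.Helper67.MD.ENA
import Pool.Agent.Helper67.MD.EXV
import Pool.Agent.Helper67.MD.FEJ
import Pool.Agent.Helper67.MD.NUS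
import Pool.Agent.Helper7.MD.ORT
import Pool.Agent.Helper71.MD.APX
import Pool.Agent.Helper72.MD.ESA
import Pool.Agent.Helper77.MD.FOU
import Pool.Agent.Helper81.MD.DSC
import Pool.Agent.Helper91.MD.WMR
import Pool.Agent.Helper94.MD.ENX
import Pool.Agent.Helper94.MD.RIC
import Pool.Agent.Helper95.MD.WRD
import Pool.Agent.Helper97.MD.STB
import Pool.Agent.Helper40.MR.All
import Pool.Agent.Helper38.SO.BH
import Pool.Agent.Helper38.SO.Bon
import Pool.Agent.Helper38.SO.SAP
import Pool.Agent.Helper38.SO.Sieve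
import Pool.Agent.Helper61.SO.MER
import Pool.Agent.Helper81.SO.Crtc
import Pool.Agent.Helper16.MD.Fin

namespace Pool.Agent.Helper16.MD

theorem all_SAP : Pool.Agent.Helper17.SO.ST_SAP :=
  Pool.Agent.Helper17.SO.st_SAP (Pool.Agent.Helper17.SO.st_SIEVE
    (Pool.Agent.Helper17.SO.st_BH Pool.Agent.Helper17.SO.st_BONA Pool.Agent.Helper17.SO.st_CRTC)
    Pool.Agent.Helper17.SO.st_MER)

theorem all_KAT : ST_KAT := st_KAT (st_TKB st_TKA)

theorem all_WND : ST_WND := st_WND Pool.Agent.Helper17.SO.st_MER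

theorem all_FOU : ST_FOU := st_FOU st_DIL st_TAL

theorem all_HOL : ST_HOL := st_HOL st_BIL

theorem all_ESA : ST_ESA := st_ESA (st_BTD all_SAP Pool.Agent.Helper17.SO.st_MER) st_TOT st_BIL

theorem all_ESB : ST_ESB := st_ESB st_BIL all_HOL st_ENA st_ENX st_KMX

theorem all_ESC : ST_ESC := st_ESC all_HOL st_HOC st_ENX st_ENY st_KMX st_LMX

theorem all_EST : ST_EST := st_EST all_ESA all_ESB all_ESC

theorem all_RIC : ST_RIC := st_RIC all_EST st_FEJ st_RED

theorem all_PRA : ST_PRA :=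
  st_PRA all_KAT all_WND st_SHF st_EXV all_FOU all_RIC st_AUT st_NUS st_CNC st_NCP st_PAR

theorem all_STB : ST_STB := st_STB st_WRD

theorem all_WMR : ST_WMR := st_WMR Pool.Agent.Helper40.MR.all_NT

theorem all_DSC : ST_DSC := st_DSC st_APX all_WMR st_BLK

theorem all_ORT : ST_ORT := st_ORT all_PRA st_PRD st_STA all_STB all_DSC

end Pool.Agent.Helper16.MD
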