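import Mathlib
import Pool.Agent.Helper51.MoCore

/-!
Moebius disjointness of generalized Morse systems: definitions for the modules.
-/

open Finset Filter
open scoped ComplexConjugate

namespace Pool.Agent.Helper16.MD

/-- `exp (2 pi i x)` -/
noncomputable def ee (x : ℝ) : ℂ := Complex.exp (((2 * Real.pi * x : ℝ) : ℂ) * Complex.I)

/-- the standard additive character of `ZMod d` -/
noncomputable def ed {d : ℕ} [NeZero d] (x : ZMod d) : ℂ := ZMod.stdAddChar x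

/-- `∑_{n ≤ N} μ(n) f(n)` -/
noncomputable def MS (f : ℕ → ℂ) (N : ℕ) : ℂ :=
  ∑ n ∈ Icc 1 N, ((ArithmeticFunction.moebius n : ℤ) : ℂ) * f n

/-- primes in `(2^i, 2^(i+1)]` not dividing `D` -/
def PB (D i : ℕ) : Finset ℕ := (Ioc (2 ^ i) (2 ^ (i + 1))).filter (fun p => p.Prime ∧ ¬ p ∣ D)

/-- the block number `i` has many primes -/
def Rich (D i : ℕ) : Prop := 2 ^ i ≤ 4 * i * (PB D i).card

/-- the rich blocks in the window `[I, K I)` -/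
def RW (D I K : ℕ) : Finset ℕ := (Ico I (K * I)).filter (fun i => 2 ^ i ≤ 4 * i * (PB D i).card)

/-- `∑ 1/p` over the primes of the blocks in `R` -/
noncomputable def Am (D : ℕ) (R : Finset ℕ) : ℝ := ∑ i ∈ R, ∑ p ∈ PB D i, 1 / (p : ℝ)

/-- triples of primes -/
def Bk (D i j k : ℕ) : Finset (ℕ × ℕ × ℕ) := PB D i ×ˢ (PB D j ×ˢ PB D k)

/-- the product of a triple -/
def pr (t : ℕ × ℕ × ℕ) : ℕ := t.1 * (t.2.1 * t.2.2)

/-- the function `φ(x) G(⌊(x+a)/n⌋) ω(⌊(x+a)/(nΛ)⌋)` -/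
def FF (n Λ a : ℕ) (φ G ω : ℕ → ℂ) (x : ℕ) : ℂ :=
  φ x * G ((x + a) / n) * ω ((x + a) / (n * Λ))

/-- mean square of the correlations after the shifts by multiples of `n` -/
noncomputable def VV (n Λ a H P P' : ℕ) (G : ℕ → ℂ) : ℝ :=
  (∑ z ∈ range (n * Λ), ‖∑ h ∈ range H,
    G ((P * z + a) / n + P * h) * conj (G ((P' * z + a) / n + P' * h))‖ ^ 2) /
    ((n : ℝ) * Λ * (H : ℝ) ^ 2)

/-- Fourier coefficient of a function on `ZMod D` -/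
noncomputable def hat {D : ℕ} [NeZero D] (F : ZMod D → ℂ) (X : ZMod D) : ℂ :=
  (∑ x : ZMod D, F x * ed (-(X * x))) / D

/-- squared Fourier coefficients of a `Λ`-periodic function -/
noncomputable def nu (Λ : ℕ) (G : ℕ → ℂ) (ξ : ℕ) : ℝ :=
  ‖(∑ s ∈ range Λ, G s * ee (-((ξ : ℝ) * s) / Λ)) / (Λ : ℂ)‖ ^ 2

/-- number of coincidences of a family -/
def JJ {ι : Type} {d : ℕ} (X : Finset ι) (x : ι → ZMod d) : ℕ :=
  ((X ×ˢ X).filter (fun u => x u.1 = x u.2)).card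

/-- additive energy of order `k` -/
def JK {d : ℕ} (Q : Finset ℕ) (x : ℕ → ZMod d) (k : ℕ) : ℕ :=
  JJ (Fintype.piFinset fun _ : Fin k => Q) (fun t => ∑ i, x (t i))

open Classical in
/-- a prime and an injective family of `2 l` primes -/
noncomputable def YY (Q₂ Q₃ : Finset ℕ) (l : ℕ) : Finset (ℕ × (Fin (2 * l) → ℕ)) :=
  Q₃ ×ˢ ((Fintype.piFinset fun _ : Fin (2 * l) => Q₂).filter fun t => Function.Injective t)

/-- `1/p` times the signed sum of the `1 / p_i`, modulo `d` -/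
def yv (d l : ℕ) (u : ℕ × (Fin (2 * l) → ℕ)) : ZMod d :=
  (u.1 : ZMod d)⁻¹ * ∑ i : Fin (2 * l), (if i.1 < l then 1 else -1) * (u.2 i : ZMod d)⁻¹

/-- `Q` is a set of primes in `(2^i, 2^(i+1)]` not dividing `d` -/
def Pb (d i : ℕ) (Q : Finset ℕ) : Prop :=
  ∀ p ∈ Q, p.Prime ∧ 2 ^ i < p ∧ p ≤ 2 ^ (i + 1) ∧ ¬ p ∣ d

/-- `Q` is a large set of primes in `(2^i, 2^(i+1)]` not dividing `d` -/
def Pr (d i : ℕ) (Q : Finset ℕ) : Prop := Pb d i Q ∧ 2 ^ i ≤ 4 * i * Q.card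

/-- the double sum -/
noncomputable def S2 {d : ℕ} [NeZero d] (b : ZMod d) (Q₁ Q₃ : Finset ℕ) : ℂ :=
  ∑ p ∈ Q₁, ∑ r ∈ Q₃, ed (b * (p : ZMod d)⁻¹ * (r : ZMod d)⁻¹)

/-- the triple sum -/
noncomputable def S3 {d : ℕ} [NeZero d] (b : ZMod d) (Q₁ Q₂ Q₃ : Finset ℕ) : ℂ :=
  ∑ p ∈ Q₁, ∑ q ∈ Q₂, ∑ r ∈ Q₃,
    ed (b * (p : ZMod d)⁻¹ * (q : ZMod d)⁻¹ * (r : ZMod d)⁻¹)

/-- the sizes of the blocks -/
def Par (K n Λ i j k : ℕ) : Prop :=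
  5 * (i + j) ≤ k ∧ k ≤ K * i ∧ k ≤ K * j ∧ n * Λ ≤ 2 ^ (K * i) ∧ n * Λ ≤ 2 ^ (K * j) ∧
  Rich (n * Λ) i ∧ Rich (n * Λ) j ∧ Rich (n * Λ) k

/-- the absolute value of the mean of `β_i(x) e(θ x)` -/
noncomputable def AW (β : ℕ → ℕ → ℝ) (ℓ : ℕ → ℕ) (i : ℕ) (θ : ℝ) : ℝ :=
  ‖(∑ x ∈ range (ℓ i), ((β i x : ℝ) : ℂ) * ee (θ * x)) / (ℓ i : ℂ)‖

/-- the words are, up to a summable error, constant or alternating -/
def DT (β : ℕ → ℕ → ℝ) (ℓ : ℕ → ℕ) : Prop :=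
  ∃ (i₀ : ℕ) (ε : ℝ), (ε = 1 ∨ (ε = -1 ∧ ∀ i, i₀ ≤ i → Odd (ℓ i))) ∧
    Summable fun i : ℕ => 1 - |(∑ x ∈ range (ℓ (i₀ + i)), ε ^ x * β (i₀ + i) x) / (ℓ (i₀ + i) : ℝ)|

end Pool.Agent.Helper16.MD
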